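import Mathlib
import Pool.Agent.Y294.FO.Stm

/-! # Project FO: comparison of the lengths of two light paths (helper182) -/

set_option autoImplicit false

open Set Metric Filter Topology
open scoped RealInnerProductSpace

namespace Pool.Agent.Y182.FO.Len

open Pool.Agent.Y294.FO

variable {E : Type*} [NormedAddCommGroup E] [InnerProductSpace ℝ E]

/-- the boundary is close to the tangent plane -/
theorem tangent {Ω : Set E} {ν : E → E} {r : ℝ} (h : Region Ω ν r) {p q : E}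
    (hp : p ∈ frontier Ω) (hq : q ∈ frontier Ω) :
    |⟪ν p, q - p⟫| ≤ ‖q - p‖ ^ 2 / (2 * r) := by
  have hr := h.r_pos
  have hn := h.unit p hp
  have h1 : q ∉ ball (p - r • ν p) r := by
    intro hq'
    have h2 := h.inner p hp hq'
    have h3 := h.isOpen.inter_frontier_eq
    have : q ∈ Ω ∩ frontier Ω := ⟨h2, hq⟩
    rw [h3] at this
    exact this
  have h2 : q ∉ ball (p + r • ν p) r := by
    intro hq'
    have h3 : q ∈ closure Ω := frontier_subset_closure hq
    rw [_root_.mem_closure_iff] at h3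
    obtain ⟨z, hz1, hz2⟩ := h3 _ isOpen_ball hq'
    exact Set.disjoint_left.1 (h.outer p hp) hz1 hz2
  rw [mem_ball, dist_eq_norm, not_lt] at h1 h2
  have e1 : q - (p - r • ν p) = (q - p) + r • ν p := by abel
  have e2 : q - (p + r • ν p) = (q - p) - r • ν p := by abel
  rw [e1] at h1
  rw [e2] at h2
  have s1 : r ^ 2 ≤ ‖(q - p) + r • ν p‖ ^ 2 := pow_le_pow_left₀ hr.le h1 2
  have s2 : r ^ 2 ≤ ‖(q - p) - r • ν p‖ ^ 2 := pow_le_pow_left₀ hr.le h2 2
  rw [norm_add_sq_real, norm_smul, hn, real_inner_smul_right, Real.norm_eq_abs, mul_one,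
    sq_abs] at s1
  rw [norm_sub_sq_real, norm_smul, hn, real_inner_smul_right, Real.norm_eq_abs, mul_one,
    sq_abs] at s2
  rw [real_inner_comm, abs_le]
  constructor
  · rw [neg_le_iff_add_nonneg, ← sub_nonneg]
    have : 0 ≤ (‖q - p‖ ^ 2 + 2 * (r * ⟪q - p, ν p⟫)) / (2 * r) := by
      apply div_nonneg <;> linarith
    have e : (‖q - p‖ ^ 2 + 2 * (r * ⟪q - p, ν p⟫)) / (2 * r) =
        ⟪q - p, ν p⟫ + ‖q - p‖ ^ 2 / (2 * r) - 0 := by
      field_simp
      ring
    rw [← e]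
    exact this
  · rw [le_div_iff₀ (by positivity)]
    linarith

theorem abel_sum (v h : ℕ → E) (m : ℕ) :
    ∑ i ∈ Finset.range (m + 1), ⟪v i, h (i + 1) - h i⟫ =
      ⟪v m, h (m + 1)⟫ - ⟪v 0, h 0⟫ + ∑ i ∈ Finset.range m, ⟪v i - v (i + 1), h (i + 1)⟫ := by
  induction m with
  | zero => simp [inner_sub_right]
  | succ m ih =>
    rw [Finset.sum_range_succ, ih, Finset.sum_range_succ _ m, inner_sub_right, inner_sub_left]
    ring

theorem half (Ω : Set E) (ν : E → E) (r : ℝ) (hΩ : Region Ω ν r) (k : ℕ) (x y : E)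
    (P v : ℕ → E) (τ : ℕ → ℝ) (P' v' : ℕ → E) (τ' : ℕ → ℝ)
    (h1 : LightPath Ω ν k x y P v τ) (h2 : LightPath Ω ν k x y P' v' τ') :
    -((1 / r) * ∑ i ∈ Finset.range k, ‖P' (i + 1) - P (i + 1)‖ ^ 2) ≤
      (∑ i ∈ Finset.range (k + 1), τ' i) - ∑ i ∈ Finset.range (k + 1), τ i := by
  set h : ℕ → E := fun i => P' i - P i with hh
  have hr := hΩ.r_pos
  have hleg : ∀ i ∈ Finset.range (k + 1), ⟪v i, h (i + 1) - h i⟫ ≤ τ' i - τ i := by
    intro i hi
    rw [Finset.mem_range] at hi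
    have hik : i ≤ k := by omega
    have e1 : h (i + 1) - h i = τ' i • v' i - τ i • v i := by
      simp only [hh]
      rw [h1.step i hik, h2.step i hik]
      abel
    rw [e1, inner_sub_right, real_inner_smul_right, real_inner_smul_right,
      real_inner_self_eq_norm_sq, h1.unit i hik]
    have h3 : ⟪v i, v' i⟫ ≤ 1 := by
      have := real_inner_le_norm (v i) (v' i)
      rwa [h1.unit i hik, h2.unit i hik, one_mul] at this
    have h4 := h2.pos i hik
    nlinarith
  have hs := Finset.sum_le_sum hleg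
  rw [abel_sum, Finset.sum_sub_distrib] at hs
  have hk : h (k + 1) = 0 := by simp only [hh]; rw [h1.finish, h2.finish, sub_self]
  have h0 : h 0 = 0 := by simp only [hh]; rw [h1.start, h2.start, sub_self]
  rw [hk, h0, inner_zero_right, inner_zero_right, sub_zero, zero_add] at hs
  refine le_trans ?_ hs
  rw [Finset.mul_sum, ← Finset.sum_neg_distrib]
  refine Finset.sum_le_sum fun i hi => ?_
  rw [Finset.mem_range] at hi
  have e2 : v i - v (i + 1) = (2 * ⟪ν (P (i + 1)), v i⟫) • ν (P (i + 1)) := by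
    rw [h1.law i hi, Pool.Agent.Y294.FO.refl]
    abel
  rw [e2, real_inner_smul_left]
  have h5 := tangent hΩ (h1.bdry i hi) (h2.bdry i hi)
  have h6 : |⟪ν (P (i + 1)), v i⟫| ≤ 1 := by
    have := abs_real_inner_le_norm (ν (P (i + 1))) (v i)
    rwa [hΩ.unit _ (h1.bdry i hi), h1.unit i hi.le, one_mul] at this
  have h7 : |2 * ⟪ν (P (i + 1)), v i⟫ * ⟪ν (P (i + 1)), h (i + 1)⟫| ≤
      1 / r * ‖P' (i + 1) - P (i + 1)‖ ^ 2 := by
    rw [abs_mul, abs_mul, abs_two]
    calc 2 * |⟪ν (P (i + 1)), v i⟫| * |⟪ν (P (i + 1)), h (i + 1)⟫|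
        ≤ 2 * 1 * (‖P' (i + 1) - P (i + 1)‖ ^ 2 / (2 * r)) := by
          refine mul_le_mul (by linarith) h5 (abs_nonneg _) (by norm_num)
      _ = _ := by field_simp
  exact (abs_le.1 h7).1

theorem main (E : Type*) [NormedAddCommGroup E] [InnerProductSpace ℝ E] :
    Pool.Agent.Y294.FO.S_LEN E := by
  intro Ω ν r hΩ k x y P v τ P' v' τ' h1 h2
  have a1 := half Ω ν r hΩ k x y P v τ P' v' τ' h1 h2
  have a2 := half Ω ν r hΩ k x y P' v' τ' P v τ h2 h1
  rw [abs_le]
  refine ⟨a1, ?_⟩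
  have e : ∑ i ∈ Finset.range k, ‖P (i + 1) - P' (i + 1)‖ ^ 2 =
      ∑ i ∈ Finset.range k, ‖P' (i + 1) - P (i + 1)‖ ^ 2 :=
    Finset.sum_congr rfl fun i _ => by rw [norm_sub_rev]
  rw [e] at a2
  linarith

end Pool.Agent.Y182.FO.Len
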