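import Mathlib
import Pool.Agent.Y182.FO.Len

/-! # Project FO: local Lipschitz dependence of the exit distance (helper182) -/

set_option autoImplicit false

open Set Metric Filter Topology
open scoped RealInnerProductSpace

namespace Pool.Agent.Y182.FO.Exit

open Pool.Agent.Y294.FO Pool.Agent.Y182.FO.Len

variable {E : Type*} [NormedAddCommGroup E] [InnerProductSpace ℝ E]

/-- the normal is Lipschitz -/
theorem nu_lip {Ω : Set E} {ν : E → E} {r : ℝ} (h : Region Ω ν r) {p q : E}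
    (hp : p ∈ frontier Ω) (hq : q ∈ frontier Ω) : ‖ν p - ν q‖ ≤ ‖p - q‖ / r := by
  have hr := h.r_pos
  have key : ∀ a ∈ frontier Ω, ∀ b ∈ frontier Ω, 2 * r ≤ ‖(a - b) - r • (ν a + ν b)‖ := by
    intro a ha b hb
    by_contra hlt
    rw [not_le] at hlt
    set m : E := (1 / 2 : ℝ) • ((a - r • ν a) + (b + r • ν b)) with hm
    have e1 : m - (a - r • ν a) = -((1 / 2 : ℝ) • ((a - b) - r • (ν a + ν b))) := by
      rw [hm]
      module
    have e2 : m - (b + r • ν b) = (1 / 2 : ℝ) • ((a - b) - r • (ν a + ν b)) := by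
      rw [hm]
      module
    have h1 : m ∈ ball (a - r • ν a) r := by
      rw [mem_ball, dist_eq_norm, e1, norm_neg, norm_smul, Real.norm_eq_abs,
        abs_of_pos (by norm_num : (0 : ℝ) < 1 / 2)]
      linarith
    have h2 : m ∈ ball (b + r • ν b) r := by
      rw [mem_ball, dist_eq_norm, e2, norm_smul, Real.norm_eq_abs,
        abs_of_pos (by norm_num : (0 : ℝ) < 1 / 2)]
      linarith
    exact Set.disjoint_left.1 (h.outer b hb) h2 (h.inner a ha h1)
  have k1 := key p hp q hq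
  have k2 := key q hq p hp
  have s1 : (2 * r) ^ 2 ≤ ‖(p - q) - r • (ν p + ν q)‖ ^ 2 := pow_le_pow_left₀ (by linarith) k1 2
  have s2 : (2 * r) ^ 2 ≤ ‖(q - p) - r • (ν q + ν p)‖ ^ 2 := pow_le_pow_left₀ (by linarith) k2 2
  have e3 : ‖(q - p) - r • (ν q + ν p)‖ = ‖(p - q) + r • (ν p + ν q)‖ := by
    rw [← norm_neg]
    congr 1
    module
  rw [e3, norm_add_sq_real, norm_smul] at s2
  rw [norm_sub_sq_real, norm_smul] at s1
  rw [Real.norm_eq_abs, mul_pow |r|, sq_abs] at s1 s2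
  have e4 := parallelogram_law_with_norm ℝ (ν p) (ν q)
  rw [h.unit p hp, h.unit q hq] at e4
  have h5 : r ^ 2 * ‖ν p - ν q‖ ^ 2 ≤ ‖p - q‖ ^ 2 := by nlinarith
  rw [le_div_iff₀ hr]
  rw [← mul_pow] at h5
  have h6 := (le_abs_self _).trans (abs_le_of_sq_le_sq h5 (norm_nonneg _))
  linarith

theorem ar1 {α β m X t : ℝ} (hα : 0 ≤ α) (hβ : 0 ≤ β) (hX1 : α * m < X) (hX2 : β * m < X)
    (ht0 : 0 ≤ t) (ht1 : t ≤ m - 1) : α + t * β < X := by
  rcases le_total α β with hab | hab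
  · have h1 : t * β ≤ (m - 1) * β := mul_le_mul_of_nonneg_right ht1 hβ
    nlinarith
  · have h1 : t * β ≤ (m - 1) * α := mul_le_mul ht1 hab hβ (by linarith)
    nlinarith

theorem ar2 {A S d0 r ε : ℝ} (hr : 0 < r) (hε : ε = r * d0 / 2) (hS : 0 ≤ S)
    (hSε : S ≤ ε) (hA : 0 ≤ A) (hAr : A ≤ r / 2) (h : S * d0 ≤ A + (A + S) ^ 2 / (2 * r)) :
    S * d0 ≤ 3 * A := by
  have h3 : (A + S) ^ 2 / (2 * r) ≤ A / 2 + S * d0 / 2 := by
    have h4 : (A + S) ^ 2 ≤ 2 * (A ^ 2 + S ^ 2) := by nlinarith [sq_nonneg (A - S)]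
    have h5 : A ^ 2 ≤ A * (r / 2) := by nlinarith
    have h6 : S ^ 2 ≤ S * (r * d0 / 2) := by
      have := mul_le_mul_of_nonneg_left hSε hS
      rw [hε] at this
      nlinarith
    rw [div_le_iff₀ (by positivity)]
    nlinarith
  linarith

theorem ar3 {α β m τ : ℝ} (hα : 0 ≤ α) (hβ : 0 ≤ β) (hτ : 0 ≤ τ) (hm : τ ≤ m - 1) :
    α + τ * β ≤ m * (α + β) := by
  have h1 : τ * β ≤ (m - 1) * β := mul_le_mul_of_nonneg_right hm hβ
  have h2 : 0 ≤ (m - 1) * α := mul_nonneg (by linarith) hα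
  linarith

/-- lower bound for the exit distance -/
theorem lower {Ω : Set E} {ν : E → E} {r : ℝ} (h : Region Ω ν r) {p0 v0 : E}
    (h0 : p0 ∈ Ω ∨ (p0 ∈ frontier Ω ∧ ⟪ν p0, v0⟫ < 0)) :
    ∃ ε0 δa : ℝ, 0 < ε0 ∧ 0 < δa ∧ ∀ (p v : E) (τ : ℝ), 0 < τ → ‖v‖ = 1 →
      p + τ • v ∈ frontier Ω → (p0 ∈ Ω ∨ p ∈ frontier Ω) → ‖p - p0‖ < δa → ‖v - v0‖ < δa →
      ε0 ≤ τ := by
  have hr := h.r_pos
  have hdis : ∀ z, z ∈ Ω → z ∈ frontier Ω → False := by
    intro z hz1 hz2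
    have h3 := h.isOpen.inter_frontier_eq
    have : z ∈ Ω ∩ frontier Ω := ⟨hz1, hz2⟩
    rw [h3] at this
    exact this
  rcases h0 with h0 | ⟨h0, h1⟩
  · obtain ⟨ρ, hρ, hb⟩ := Metric.isOpen_iff.1 h.isOpen p0 h0
    refine ⟨ρ / 2, ρ / 2, by positivity, by positivity, ?_⟩
    intro p v τ hτ hv hq _ hp _
    by_contra hlt
    rw [not_le] at hlt
    refine hdis _ (hb ?_) hq
    rw [mem_ball, dist_eq_norm]
    have e : p + τ • v - p0 = (p - p0) + τ • v := by abel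
    rw [e]
    calc ‖(p - p0) + τ • v‖ ≤ ‖p - p0‖ + ‖τ • v‖ := norm_add_le _ _
      _ = ‖p - p0‖ + τ := by rw [norm_smul, hv, Real.norm_eq_abs, abs_of_pos hτ, mul_one]
      _ < ρ := by linarith
  · set d1 : ℝ := -⟪ν p0, v0⟫ with hd1
    have hd1p : 0 < d1 := by rw [hd1]; linarith
    refine ⟨r * d1, min (d1 * r / 4) (d1 / 4), by positivity, by positivity, ?_⟩
    intro p v τ hτ hv hq hp2 hp hvv
    have hpf : p ∈ frontier Ω := by
      rcases hp2 with h2 | h2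
      · exact absurd h0 (fun h' => hdis p0 h2 h')
      · exact h2
    have hp' : ‖p - p0‖ < d1 * r / 4 := lt_of_lt_of_le hp (min_le_left _ _)
    have hv' : ‖v - v0‖ < d1 / 4 := lt_of_lt_of_le hvv (min_le_right _ _)
    have h2 := nu_lip h hpf h0
    have h3 : ‖p - p0‖ / r < d1 / 4 := by
      rw [div_lt_iff₀ hr]
      linarith
    have h4 : ⟪ν p, v⟫ = ⟪ν p0, v0⟫ + ⟪ν p - ν p0, v⟫ + ⟪ν p0, v - v0⟫ := by
      rw [inner_sub_left, inner_sub_right]
      ring
    have h5 : ⟪ν p - ν p0, v⟫ ≤ ‖ν p - ν p0‖ * ‖v‖ := real_inner_le_norm _ _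
    have h6 : ⟪ν p0, v - v0⟫ ≤ ‖ν p0‖ * ‖v - v0‖ := real_inner_le_norm _ _
    rw [hv, mul_one] at h5
    rw [h.unit p0 h0, one_mul] at h6
    have h7 : ⟪ν p, v⟫ ≤ -(d1 / 2) := by
      rw [h4]
      have : ⟪ν p0, v0⟫ = -d1 := by rw [hd1]; ring
      linarith
    have h8 := (abs_le.1 (tangent h hpf hq)).1
    have e : p + τ • v - p = τ • v := by abel
    rw [e, real_inner_smul_right, norm_smul, hv, Real.norm_eq_abs, abs_of_pos hτ, mul_one] at h8
    have h9 : -(τ ^ 2 / (2 * r)) = τ * (-(τ / (2 * r))) := by ring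
    rw [h9] at h8
    have h10 := le_of_mul_le_mul_left h8 hτ
    have h11 : d1 / 2 ≤ τ / (2 * r) := by linarith
    rw [le_div_iff₀ (by positivity)] at h11
    linarith

theorem main (E : Type*) [NormedAddCommGroup E] [InnerProductSpace ℝ E] :
    Pool.Agent.Y294.FO.S_EXIT E := by
  intro Ω ν r h p0 v0 τ0 hτ0 hv0 hq0 hseg hd0 h0
  have hr := h.r_pos
  set q0 : E := p0 + τ0 • v0 with hq0d
  set d0 : ℝ := ⟪ν q0, v0⟫ with hd0d
  obtain ⟨ε0, δa, hε0, hδa, hlow⟩ := lower h h0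
  set ε : ℝ := r * d0 / 2 with hε
  have hεp : 0 < ε := by positivity
  set m : ℝ := 1 + τ0 + ε with hm
  have hmp : 0 < m := by positivity
  -- the compact segment
  set K : Set E := (fun t : ℝ => p0 + t • v0) '' Icc ε0 (τ0 - ε) with hK
  have hKc : IsCompact K := by
    refine isCompact_Icc.image ?_
    fun_prop
  have hKΩ : K ⊆ Ω := by
    rintro _ ⟨t, ht, rfl⟩
    refine hseg ?_
    rw [openSegment_eq_image']
    refine ⟨t / τ0, ⟨div_pos (lt_of_lt_of_le hε0 ht.1) hτ0, ?_⟩, ?_⟩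
    · rw [div_lt_one hτ0]
      linarith [ht.2]
    · simp only [hq0d]
      rw [add_sub_cancel_left, smul_smul, div_mul_cancel₀ _ hτ0.ne']
  obtain ⟨ρ, hρ, hthick⟩ := hKc.exists_thickening_subset_open h.isOpen hKΩ
  -- the point behind the boundary
  have hgap : ‖ε • v0 - r • ν q0‖ < r := by
    have h1 : ‖ε • v0 - r • ν q0‖ ^ 2 < r ^ 2 := by
      rw [norm_sub_sq_real, norm_smul, norm_smul, hv0, h.unit q0 hq0, real_inner_smul_left,
        real_inner_smul_right, real_inner_comm, ← hd0d, mul_one, mul_one, Real.norm_eq_abs,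
        Real.norm_eq_abs, sq_abs, sq_abs]
      have h2 : 0 < ε * (r * d0) := by positivity
      have h3 : ε ^ 2 = ε * (r * d0) / 2 := by rw [hε]; ring
      have h4 : ε * (r * d0) = ε * r * d0 := by ring
      rw [h3]
      linarith
    exact lt_of_pow_lt_pow_left₀ 2 hr.le h1
  set g : ℝ := r - ‖ε • v0 - r • ν q0‖ with hg
  have hgp : 0 < g := by rw [hg]; linarith
  refine ⟨4 * m / d0, min δa (min (ρ / m) (min (g / m) (r / (2 * m)))), by positivity,
    by positivity, ?_⟩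
  intro p v τ hτ hv hq hsegp hpf hp hvv
  have b1 := lt_of_lt_of_le hp (min_le_left _ _)
  have b2 := lt_of_lt_of_le hvv (min_le_left _ _)
  have c1 := lt_of_lt_of_le hp ((min_le_right _ _).trans (min_le_left _ _))
  have c2 := lt_of_lt_of_le hvv ((min_le_right _ _).trans (min_le_left _ _))
  have d1 := lt_of_lt_of_le hp ((min_le_right _ _).trans ((min_le_right _ _).trans
    (min_le_left _ _)))
  have d2 := lt_of_lt_of_le hvv ((min_le_right _ _).trans ((min_le_right _ _).trans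
    (min_le_left _ _)))
  have f1 := lt_of_lt_of_le hp ((min_le_right _ _).trans ((min_le_right _ _).trans
    (min_le_right _ _)))
  have f2 := lt_of_lt_of_le hvv ((min_le_right _ _).trans ((min_le_right _ _).trans
    (min_le_right _ _)))
  rw [lt_div_iff₀ hmp] at c1 c2 d1 d2
  rw [lt_div_iff₀ (by positivity)] at f1 f2
  set α : ℝ := ‖p - p0‖ with hα
  set β : ℝ := ‖v - v0‖ with hβ
  have hα0 : 0 ≤ α := norm_nonneg _
  have hβ0 : 0 ≤ β := norm_nonneg _
  have hmain : ∀ X : ℝ, α * m < X → β * m < X → ∀ t : ℝ, 0 ≤ t → t ≤ τ0 + ε → α + t * β < X :=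
    fun X hX1 hX2 t ht0 ht1 => ar1 hα0 hβ0 hX1 hX2 ht0 (by rw [hm]; linarith)
  have hτl := hlow p v τ hτ hv hq hpf b1 b2
  -- points on the two rays are close
  have hclose : ∀ t : ℝ, 0 ≤ t → ‖(p + t • v) - (p0 + t • v0)‖ ≤ α + t * β := by
    intro t ht
    have e : (p + t • v) - (p0 + t • v0) = (p - p0) + t • (v - v0) := by module
    rw [e]
    calc ‖(p - p0) + t • (v - v0)‖ ≤ ‖p - p0‖ + ‖t • (v - v0)‖ := norm_add_le _ _
      _ = _ := by rw [norm_smul, Real.norm_eq_abs, abs_of_nonneg ht]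
  have hdis : ∀ z, z ∈ Ω → z ∈ frontier Ω → False := by
    intro z hz1 hz2
    have h3 := h.isOpen.inter_frontier_eq
    have : z ∈ Ω ∩ frontier Ω := ⟨hz1, hz2⟩
    rw [h3] at this
    exact this
  -- lower estimate
  have hlo : τ0 - ε < τ := by
    by_contra hle
    rw [not_lt] at hle
    have hτK : p0 + τ • v0 ∈ K := ⟨τ, ⟨hτl, hle⟩, rfl⟩
    refine hdis _ (hthick ?_) hq
    rw [mem_thickening_iff]
    refine ⟨_, hτK, ?_⟩
    rw [dist_eq_norm]
    exact (hclose τ hτ.le).trans_lt (hmain ρ c1 c2 τ hτ.le (by linarith))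
  -- upper estimate
  have hup : τ ≤ τ0 + ε := by
    by_contra hlt
    rw [not_le] at hlt
    have h1 : p + (τ0 + ε) • v ∈ Ω := by
      refine hsegp ?_
      rw [openSegment_eq_image']
      refine ⟨(τ0 + ε) / τ, ⟨by positivity, ?_⟩, ?_⟩
      · rw [div_lt_one hτ]
        exact hlt
      · simp only
        rw [add_sub_cancel_left, smul_smul, div_mul_cancel₀ _ hτ.ne']
    refine Set.disjoint_left.1 (h.outer q0 hq0) ?_ h1
    rw [mem_ball, dist_eq_norm]
    have e : p + (τ0 + ε) • v - (q0 + r • ν q0) =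
        ((p + (τ0 + ε) • v) - (p0 + (τ0 + ε) • v0)) + (ε • v0 - r • ν q0) := by
      rw [hq0d]
      module
    rw [e]
    calc _ ≤ ‖(p + (τ0 + ε) • v) - (p0 + (τ0 + ε) • v0)‖ + ‖ε • v0 - r • ν q0‖ :=
          norm_add_le _ _
      _ < g + ‖ε • v0 - r • ν q0‖ := by
          have := (hclose (τ0 + ε) (by positivity)).trans_lt
            (hmain g d1 d2 (τ0 + ε) (by positivity) le_rfl)
          linarith
      _ = r := by rw [hg]; ring
  -- the estimate
  set s : ℝ := τ - τ0 with hs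
  have hsε : |s| ≤ ε := by
    rw [abs_le]
    constructor <;> linarith
  set A : ℝ := α + τ * β with hA
  have hA0 : 0 ≤ A := by positivity
  have hAr : A < r / 2 := hmain (r / 2) (by linarith) (by linarith) τ hτ.le hup
  set w : E := (p - p0) + τ • (v - v0) with hw
  have hwA : ‖w‖ ≤ A := by
    rw [hw, hA]
    calc ‖(p - p0) + τ • (v - v0)‖ ≤ ‖p - p0‖ + ‖τ • (v - v0)‖ := norm_add_le _ _
      _ = _ := by rw [norm_smul, Real.norm_eq_abs, abs_of_nonneg hτ.le]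
  have hqq : p + τ • v - q0 = w + s • v0 := by
    rw [hw, hs, hq0d]
    module
  have ht := tangent h hq0 hq
  rw [hqq, inner_add_right, real_inner_smul_right, ← hd0d] at ht
  have hn : ‖w + s • v0‖ ≤ A + |s| := by
    calc ‖w + s • v0‖ ≤ ‖w‖ + ‖s • v0‖ := norm_add_le _ _
      _ ≤ A + |s| := by rw [norm_smul, hv0, mul_one, Real.norm_eq_abs]; linarith
  have hiw : |⟪ν q0, w⟫| ≤ A := by
    have := abs_real_inner_le_norm (ν q0) w
    rw [h.unit q0 hq0, one_mul] at this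
    linarith
  have hn2 : ‖w + s • v0‖ ^ 2 / (2 * r) ≤ (A + |s|) ^ 2 / (2 * r) := by
    gcongr
  have hsd : |s| * d0 ≤ A + (A + |s|) ^ 2 / (2 * r) := by
    have h1 : |s * d0| ≤ |⟪ν q0, w⟫ + s * d0| + |⟪ν q0, w⟫| := by
      have := abs_sub (⟪ν q0, w⟫ + s * d0) ⟪ν q0, w⟫
      rwa [add_sub_cancel_left] at this
    rw [abs_mul, abs_of_pos hd0] at h1
    linarith
  have h7 : |s| * d0 ≤ 3 * A := ar2 hr hε (abs_nonneg s) hsε hA0 hAr.le hsd
  have h8 : A ≤ m * (α + β) := ar3 hα0 hβ0 hτ.le (by rw [hm]; linarith)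
  have h9 : 0 ≤ m * (α + β) := by positivity
  rw [div_mul_eq_mul_div, le_div_iff₀ hd0]
  linarith

end Pool.Agent.Y182.FO.Exit
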